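import Pool.Agent.Q264.MonChain

/-!
Every Boolean algebra generated by a chain has the monotone selection property.
-/

set_option autoImplicit false

namespace Pool.Agent.Results.MP_9a43b6_co.ChainGenerated

open Pool.Agent.Q264.MonSel

universe u

/-- **Result.** A Boolean algebra `T` (of any cardinality) which is generated, as a Boolean algebra,
by a chain `C` has the monotone selection property. -/
theorem result : ∀ (T : Type u) [BooleanAlgebra T] (C : Set T),
    IsChain (· ≤ ·) C → BooleanSubalgebra.closure C = ⊤ → MonotoneSelection T := by
  intro T _ C hC hgen
  refine selection (K := C ∪ {⊥, ⊤}) ⟨?_, ?_, ?_, ?_⟩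
  · rintro a ha b hb
    rcases ha with ha | ha | ha
    · rcases hb with hb | hb | hb
      · by_cases hab : a = b
        · exact Or.inl hab.le
        · exact hC ha hb hab
      · right; rw [hb]; exact bot_le
      · left; rw [hb]; exact le_top
    · left; rw [ha]; exact bot_le
    · right; rw [ha]; exact le_top
  · exact Or.inr (Or.inl rfl)
  · exact Or.inr (Or.inr rfl)
  · rw [eq_top_iff, ← hgen]
    exact BooleanSubalgebra.closure_mono Set.subset_union_left

end Pool.Agent.Results.MP_9a43b6_co.ChainGenerated
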